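import Pool.Agent.MP_c1891a_nt.G43.SpecA

/-
Noether normalisation in a Tate algebra with control of the norms.
-/

namespace Pool.Agent.MP_c1891a_nt.G43

open Polynomial

section

variable {K A : Type} [NontriviallyNormedField K] [NormedCommRing A] [NormedAlgebra K A] {d : ℕ}

variable (K) in
/-- the statement at level `n`. -/
def NormP (Y : Fin d → A) (I : Ideal A) (n : ℕ) (Y' : Fin d → A) : Prop :=
  (∃ U : Fin d → Fin d → ℤ, ∀ i, Y' i = ∑ j, U i j • Y j) ∧ IsTate K Y' ∧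
    (∃ (ι : Type) (_ : Fintype ι) (G : ι → A), (∀ k, ‖G k‖ ≤ 1) ∧
      ∀ a : A, ∃ b : ι → A, (∀ k, b k ∈ TS K Y' n ∧ ‖b k‖ ≤ ‖a‖) ∧ a - ∑ k, b k * G k ∈ I) ∧
    ∀ a : A, ∃ p ∈ TP K Y' n, a - p ∈ Ideal.span {w | w ∈ I ∧ w ∈ TP K Y' n}

theorem norm_var {Y : Fin d → A} (h : IsTate K Y) (i : Fin d) : ‖Y i‖ ≤ 1 := by
  have h1 := h.1 (MvPolynomial.X i)
  rw [MvPolynomial.aeval_X, gn, MvPolynomial.support_X, Finset.sup_singleton,
    MvPolynomial.coeff_X_same, nnnorm_one] at h1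
  rw [← coe_nnnorm, h1, NNReal.coe_one]

theorem norm_mem_TS (Y : Fin d → A) {i : Fin d} {n : ℕ} (h : (i : ℕ) < n) : Y i ∈ TS K Y n :=
  Subalgebra.le_topologicalClosure _ (Algebra.subset_adjoin ⟨i, h, rfl⟩)

theorem norm_TS_TP (Y : Fin d → A) (n : ℕ) {x : A} (h : x ∈ TS K Y n) : x ∈ TP K Y n :=
  Algebra.subset_adjoin (Or.inl h)

theorem norm_mem_TP (Y : Fin d → A) (n : ℕ) (i : Fin d) : Y i ∈ TP K Y n :=
  Algebra.subset_adjoin (Or.inr ⟨i, rfl⟩)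

theorem norm_top {Y : Fin d → A} (h : IsTate K Y) (a : A) : a ∈ TS K Y d := by
  refine closure_mono ?_ (h.2 a)
  rintro _ ⟨p, rfl⟩
  have e : Y '' {i | (i : ℕ) < d} = Set.range Y := by
    rw [← Set.image_univ]
    exact congrArg _ (Set.eq_univ_of_forall fun i => i.2)
  rw [e, Algebra.adjoin_range_eq_range_aeval]
  exact ⟨p, rfl⟩

theorem norm_base {Y : Fin d → A} (h : IsTate K Y) (h1 : ‖(1 : A)‖ = 1) (I : Ideal A) :
    NormP K Y I d Y := by
  refine ⟨⟨fun i j => if j = i then 1 else 0, fun i => by simp⟩, h,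
    ⟨Unit, inferInstance, fun _ => 1, fun _ => h1.le, fun a =>
      ⟨fun _ => a, fun _ => ⟨norm_top h a, le_rfl⟩, by simp⟩⟩,
    fun a => ⟨a, norm_TS_TP Y d (norm_top h a), by simp⟩⟩

theorem norm_bot [CompleteSpace K] (Y : Fin d → A) (h1 : ‖(1 : A)‖ = 1) {I : Ideal A}
    (hI : I ≠ ⊤) {b : A} (hb : b ∈ TS K Y 0) (hbI : b ∈ I) : b = 0 := by
  have : NormOneClass A := ⟨h1⟩
  have hc : IsClosed ((⊥ : Subalgebra K A) : Set A) := by
    rw [Algebra.coe_bot]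
    exact (algebraMap_isometry K A).isClosedEmbedding.isClosed_range
  have hle : TS K Y 0 ≤ ⊥ := Subalgebra.topologicalClosure_minimal (by simp) hc
  obtain ⟨c, rfl⟩ := Algebra.mem_bot.1 (hle hb)
  by_contra h0
  have hc0 : c ≠ 0 := fun h => h0 (by rw [h, map_zero])
  exact hI (I.eq_top_of_isUnit_mem hbI ((Ne.isUnit hc0).map _))

theorem norm_poly [IsUltrametricDist A] (h1 : ‖(1 : A)‖ = 1) (S : Subalgebra K A) {e : ℕ}
    (r : Fin e → A) (hr : ∀ k, r k ∈ S ∧ ‖r k‖ ≤ 1) (k : ℕ) :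
    (X ^ e - ∑ j : Fin e, C (r j) * X ^ (j : ℕ) : A[X]).coeff k ∈ S ∧
      ‖(X ^ e - ∑ j : Fin e, C (r j) * X ^ (j : ℕ) : A[X]).coeff k‖ ≤ 1 := by
  rw [coeff_sub, coeff_X_pow, finsetSum_coeff]
  simp only [coeff_C_mul_X_pow]
  constructor
  · refine S.sub_mem ?_ (S.sum_mem fun j _ => ?_)
    · split_ifs
      exacts [S.one_mem, S.zero_mem]
    · split_ifs
      exacts [(hr j).1, S.zero_mem]
  · rw [sub_eq_add_neg]
    refine (IsUltrametricDist.norm_add_le_max _ _).trans (max_le ?_ ?_)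
    · split_ifs
      exacts [h1.le, by simp]
    · rw [norm_neg]
      refine IsUltrametricDist.norm_sum_le_of_forall_le_of_nonneg zero_le_one fun j _ => ?_
      split_ifs
      exacts [(hr j).2, by simp]

theorem norm_step [IsUltrametricDist K] [CompleteSpace A] [IsUltrametricDist A] (h1 : SShear)
    (h2 : SDivT) (hK : UK K) (ho : ‖(1 : A)‖ = 1) {Y Y' : Fin d → A} {I : Ideal A} (n : Fin d)
    (h : NormP K Y I (n + 1) Y') {g : A} (hg : g ∈ TS K Y' (n + 1)) (hgI : g ∈ I) (hg0 : g ≠ 0) :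
    ∃ Z, NormP K Y I n Z := by
  have : NormOneClass A := ⟨ho⟩
  obtain ⟨⟨U, hU⟩, hT, ⟨ι, _, G, hG, hb⟩, hp⟩ := h
  obtain ⟨a, Z, c, w, hZ, hTZ, hTS, hw, hwc, hcg⟩ := h1 K A d Y' hK hT n g hg hg0
  have hS : TS K Z (n + 1) = TS K Y' (n + 1) := hTS _ (Nat.lt_succ_self _)
  have ht : ∀ k : ℕ, ‖Z n ^ k‖ ≤ 1 := fun k =>
    (norm_pow_le _ _).trans (pow_le_one₀ (norm_nonneg _) (norm_var hTZ n))
  have htS : Z n ∈ TS K Z (n + 1) := norm_mem_TS Z (Nat.lt_succ_self _)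
  have hcS : c • g ∈ TS K Z (n + 1) := Subalgebra.smul_mem _ (hS ▸ hg) c
  obtain ⟨q, hq, r, hr, he⟩ := h2 K A d Z hTZ n (c • g) w hcS hw hwc hcg _
    (Subalgebra.pow_mem _ htS w.natDegree)
  obtain ⟨v, hv⟩ : ∃ v : A[X], v = X ^ w.natDegree - ∑ j, C (r j) * X ^ (j : ℕ) := ⟨_, rfl⟩
  have hvm : v.Monic := hv ▸ monic_X_pow_sub (degree_sum_fin_lt r)
  have hvc : ∀ k, v.coeff k ∈ TS K Z n ∧ ‖v.coeff k‖ ≤ 1 := fun k =>
    hv ▸ norm_poly ho _ r (fun k => ⟨(hr k).1, (hr k).2.trans (ht _)⟩) k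
  have hsum : ∀ {e : ℕ} (s : Fin e → A), (∀ k, s k ∈ TS K Z n) →
      ∑ k, s k * Z n ^ (k : ℕ) ∈ TP K Z n := fun s hs =>
    Subalgebra.sum_mem _ fun k _ => Subalgebra.mul_mem _ (norm_TS_TP Z n (hs k))
      (Subalgebra.pow_mem _ (norm_mem_TP Z n n) _)
  have e1 : v.eval (Z n) = Z n ^ w.natDegree - ∑ j, r j * Z n ^ (j : ℕ) := by
    rw [hv, eval_sub, eval_pow, eval_X, eval_finsetSum]
    simp only [eval_mul, eval_C, eval_pow, eval_X]
  have e2 : v.eval (Z n) = q * c • g := by rw [e1, sub_eq_iff_eq_add, ← he]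
  have hWI : v.eval (Z n) ∈ I := by
    rw [e2, Algebra.smul_def]
    exact I.mul_mem_left _ (I.mul_mem_left _ hgI)
  have hWS : v.eval (Z n) ∈ TS K Z (n + 1) := e2 ▸ Subalgebra.mul_mem _ hq hcS
  have hWP : v.eval (Z n) ∈ TP K Z n := e1 ▸ Subalgebra.sub_mem _
    (Subalgebra.pow_mem _ (norm_mem_TP Z n n) _) (hsum r fun k => (hr k).1)
  have hdiv := h2 K A d Z hTZ n _ v hWS hvm hvc (by simp)
  rw [hS] at hdiv
  refine ⟨Z, ⟨fun i j => if i < n then U i j - a i * U n j else U i j, fun i => ?_⟩, hTZ,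
    ⟨ι × Fin v.natDegree, inferInstance, fun x => G x.1 * Z n ^ (x.2 : ℕ), fun x => ?_,
      fun x => ?_⟩, fun x => ?_⟩
  · rw [hZ]
    beta_reduce
    split_ifs
    · rw [hU, hU, Finset.smul_sum, ← Finset.sum_sub_distrib]
      exact Finset.sum_congr rfl fun j _ => by rw [sub_smul, mul_smul]
    · exact hU i
  · exact (norm_mul_le _ _).trans (mul_le_one₀ (hG _) (norm_nonneg _) (ht _))
  · obtain ⟨b, hb1, hb2⟩ := hb x
    choose q' _ s hs hs' using fun k => hdiv (b k) (hb1 k).1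
    refine ⟨fun y => s y.1 y.2, fun y => ⟨(hs _ _).1, (hs _ _).2.trans (hb1 _).2⟩, ?_⟩
    have e3 : ∑ k, b k * G k = (∑ k, q' k * G k) * v.eval (Z n) +
        ∑ y : ι × Fin v.natDegree, s y.1 y.2 * (G y.1 * Z n ^ (y.2 : ℕ)) := by
      rw [Fintype.sum_prod_type, Finset.sum_mul, ← Finset.sum_add_distrib]
      refine Finset.sum_congr rfl fun k _ => ?_
      rw [hs' k, add_mul, Finset.sum_mul, mul_right_comm]
      exact congrArg _ (Finset.sum_congr rfl fun j _ => by ring)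
    have e4 := I.add_mem hb2 (I.mul_mem_left (∑ k, q' k * G k) hWI)
    rwa [e3, sub_add_eq_sub_sub, sub_right_comm, sub_add_cancel] at e4
  · have key : ∀ y ∈ TP K Y' (n + 1), ∃ y' ∈ TP K Z n, y - y' ∈ Ideal.span {v.eval (Z n)} := by
      have hle : TP K Y' (n + 1) ≤ ((TP K Z n).map
          (Ideal.Quotient.mkₐ K (Ideal.span {v.eval (Z n)}))).comap
          (Ideal.Quotient.mkₐ K (Ideal.span {v.eval (Z n)})) := by
        refine Algebra.adjoin_le ?_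
        rintro y (hy | ⟨i, rfl⟩)
        · obtain ⟨q', -, s, hs, hs'⟩ := hdiv y hy
          refine ⟨_, hsum s fun k => (hs k).1, Ideal.Quotient.eq.2 ?_⟩
          rw [hs', sub_add_cancel_right]
          exact neg_mem (Ideal.mul_mem_left _ _ (Ideal.mem_span_singleton_self _))
        · refine ⟨Y' i, ?_, rfl⟩
          have hn : Z n = Y' n := by rw [hZ, if_neg (lt_irrefl _)]
          by_cases hi : i < n
          · have : Y' i = Z i + a i • Z n := by rw [hZ i, if_pos hi, hn, sub_add_cancel]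
            rw [this]
            exact add_mem (norm_mem_TP Z n i) (zsmul_mem (norm_mem_TP Z n n) _)
          · have : Y' i = Z i := by rw [hZ i, if_neg hi]
            rw [this]
            exact norm_mem_TP Z n i
      intro y hy
      obtain ⟨y', h1, h2⟩ := hle hy
      exact ⟨y', h1, Ideal.Quotient.eq.1 h2.symm⟩
    have hJ : Ideal.span {v.eval (Z n)} ≤ Ideal.span {w | w ∈ I ∧ w ∈ TP K Z n} :=
      Ideal.span_mono (Set.singleton_subset_iff.2 ⟨hWI, hWP⟩)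
    have hJI : Ideal.span {v.eval (Z n)} ≤ I := (Ideal.span_singleton_le_iff_mem I).2 hWI
    have hJ' : Ideal.span {w | w ∈ I ∧ w ∈ TP K Y' (n + 1)} ≤
        Ideal.span {w | w ∈ I ∧ w ∈ TP K Z n} := by
      refine Ideal.span_le.2 fun y hy => ?_
      obtain ⟨y', h1, h2⟩ := key y hy.2
      have h3 : y' ∈ I := by simpa using I.sub_mem hy.1 (hJI h2)
      simpa using add_mem (hJ h2) (Ideal.subset_span (s := {w | w ∈ I ∧ w ∈ TP K Z n}) ⟨h3, h1⟩)
    obtain ⟨p, hp1, hp2⟩ := hp x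
    obtain ⟨p', h1, h2⟩ := key p hp1
    exact ⟨p', h1, by simpa using add_mem (hJ' hp2) (hJ h2)⟩

end

theorem sNorm (h1 : SShear) (h2 : SDivT) (h3 : STMul) : SNorm := by
  intro K A _ _ _ _ _ _ _ d Y hK hY I hI
  have ho := (h3 K A d Y hY).1
  suffices H : ∀ n ≤ d, ∀ Y', NormP K Y I n Y' → ∃ m ≤ d, ∃ Z, NormP K Y I m Z ∧
      ∀ b ∈ TS K Z m, b ∈ I → b = 0 by
    obtain ⟨m, hm, Z, ⟨⟨U, hU⟩, hT, ⟨ι, _, G, hG, hb⟩, hp⟩, h0⟩ := H d le_rfl Y (norm_base hY ho I)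
    refine ⟨U, Z, m, _, G ∘ (Fintype.equivFin ι).symm, hU, hT, hm, h0, fun k => hG _,
      fun a => ?_, hp⟩
    obtain ⟨b, hb1, hb2⟩ := hb a
    refine ⟨b ∘ (Fintype.equivFin ι).symm, fun k => hb1 _, ?_⟩
    rwa [← (Fintype.equivFin ι).symm.sum_comp] at hb2
  intro n
  induction n with
  | zero => exact fun hn Y' h => ⟨0, hn, Y', h, fun b hb => norm_bot Y' ho hI hb⟩
  | succ n ih =>
    intro hn Y' h
    by_cases h0 : ∀ b ∈ TS K Y' (n + 1), b ∈ I → b = 0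
    · exact ⟨n + 1, hn, Y', h, h0⟩
    · push Not at h0
      obtain ⟨g, hg, hgI, hg0⟩ := h0
      obtain ⟨Z, hZ⟩ := norm_step h1 h2 hK ho ⟨n, hn⟩ h hg hgI hg0
      exact ih (Nat.le_of_succ_le hn) Z hZ

end Pool.Agent.MP_c1891a_nt.G43
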