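import Pool.Agent.MP_c1891a_nt.G43.Spec3
import Pool.Agent.MP_c1891a_nt.H43.Thin

/-! The three consequences of a link. -/

namespace Pool.Agent.MP_c1891a_nt.G43

open Finset Module H43

theorem link_thin (A : Set ℕ) (e C₀ : ℕ) (h : ∀ M : ℕ, 0 < M → ∀ T : Finset ℕ,
    (∀ N ∈ T, N ∈ A ∧ N ∣ M ∧ M ^ e ≤ N ^ (e + 1)) → T.card ≤ C₀) :
    ∃ C : ℝ, ∀ X : ℕ, ∀ T : Finset ℕ, (∀ N ∈ T, N ∈ A ∧ 0 < N ∧ N ≤ X) →
      T.card * Real.log X ≤ C * X := by
  classical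
  obtain ⟨k, hk⟩ : ∃ k, k = 2 * (C₀ + 1) * e + 1 := ⟨_, rfl⟩
  refine ⟨(2 * (k + 1)) * (1 + 2 * C₀) + C₀ * (12 * (2 * (k + 1) + 3)) + 2 ^ (k + 1),
    fun X T hT => ?_⟩
  have L0 : 0 ≤ Real.log X := Real.log_natCast_nonneg X
  have X0 : (0 : ℝ) ≤ X := Nat.cast_nonneg X
  obtain ⟨y, hy⟩ : ∃ y, y = (k + 1).nthRoot X := ⟨_, rfl⟩
  have y1 : y ^ (k + 1) ≤ X := hy ▸ Nat.pow_nthRoot_le (Or.inl (by omega))
  have y2 : X < (y + 1) ^ (k + 1) := hy ▸ Nat.lt_pow_nthRoot_add_one (by omega) X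
  rcases lt_or_ge y 2 with c | c
  · have a1 : T.card ≤ X := (card_le_card (t := Icc 1 X) fun N hN =>
      mem_Icc.2 (hT N hN).2).trans (by simp)
    have a2 : X ≤ 2 ^ (k + 1) := y2.le.trans (Nat.pow_le_pow_left (by omega) _)
    have a3 : Real.log X ≤ 2 ^ (k + 1) :=
      (Real.log_le_self X0).trans (by exact_mod_cast a2)
    have a4 : (T.card : ℝ) ≤ X := by exact_mod_cast a1
    have := mul_le_mul a4 a3 L0 X0
    have : (0 : ℝ) ≤ ((2 * (k + 1)) * (1 + 2 * C₀) + C₀ * (12 * (2 * (k + 1) + 3))) * X := by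
      positivity
    nlinarith
  have y3 : X ≤ y ^ (2 * (k + 1)) := by
    rw [pow_mul]
    exact y2.le.trans (Nat.pow_le_pow_left (by nlinarith) _)
  have y4 : y ^ 2 ≤ X := (Nat.pow_le_pow_right (by omega) (by omega)).trans y1
  have r1 := rough_card c y4 y3
  have hs : ∀ N : ℕ, ∃ a r : ℕ, N ∈ T → N = r * a ∧ a ≤ y ^ 2 ∧ r ∈ Icc 1 (X / y) ∪ Rough X y := by
    intro N
    by_cases hN : N ∈ T
    · obtain ⟨a, r, e'⟩ := split_div (hT N hN).2.1 (hT N hN).2.2 (by omega : 0 < y)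
      exact ⟨a, r, fun _ => e'⟩
    · exact ⟨0, 0, fun z => absurd z hN⟩
  choose a r hs using hs
  have b1 : (T.filter fun N => N ≤ X / y).card ≤ X / y :=
    (card_le_card (t := Icc 1 (X / y)) fun N hN => mem_Icc.2
      ⟨(hT N (mem_filter.1 hN).1).2.1, (mem_filter.1 hN).2⟩).trans (by simp)
  have b2 : (T.filter fun N => ¬ N ≤ X / y).card ≤ C₀ * (Icc 1 (X / y) ∪ Rough X y).card := by
    refine card_le_mul_card_image_of_maps_to (f := r)
      (fun N hN => (hs N (mem_filter.1 hN).1).2.2) _ fun t _ => ?_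
    by_contra z
    obtain ⟨U, u1, u2⟩ := exists_subset_card_eq (Nat.succ_le_of_lt (not_le.1 z))
    have hU : ∀ N ∈ U, N ∈ T ∧ ¬ N ≤ X / y ∧ r N = t := fun N hN => by
      obtain ⟨v1, v2⟩ := mem_filter.1 (u1 hN)
      exact ⟨(mem_filter.1 v1).1, (mem_filter.1 v1).2, v2⟩
    have a0 : ∀ N ∈ U, 0 < t ∧ 0 < a N := fun N hN => by
      obtain ⟨v1, -, v3⟩ := hU N hN
      have := (hT N v1).2.1
      rw [(hs N v1).1, v3] at this
      exact ⟨Nat.pos_of_mul_pos_right this, Nat.pos_of_mul_pos_left this⟩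
    obtain ⟨N₀, n0⟩ := card_pos.1 (u2 ▸ Nat.succ_pos _ : 0 < U.card)
    have p1 := prod_le_pow_card U a (y ^ 2) fun N hN => (hs N (hU N hN).1).2.1
    rw [u2] at p1
    have := h (t * ∏ N ∈ U, a N) (Nat.mul_pos (a0 N₀ n0).1 (prod_pos fun N hN => (a0 N hN).2)) U
      fun N hN => by
        obtain ⟨v1, v2, v3⟩ := hU N hN
        have e' := (hs N v1).1
        rw [v3] at e'
        refine ⟨(hT N v1).1, ?_, ?_⟩
        · conv_lhs => rw [e']
          exact Nat.mul_dvd_mul_left _ (dvd_prod_of_mem _ hN)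
        · have w1 : t ≤ N := by
            conv_rhs => rw [e']
            exact Nat.le_mul_of_pos_right _ (a0 N hN).2
          have w2 : y ^ k ≤ N := by
            refine le_trans ?_ (not_le.1 v2).le
            rw [Nat.le_div_iff_mul_le (by omega), ← pow_succ]
            exact y1
          rw [mul_pow, pow_succ N e]
          refine Nat.mul_le_mul (Nat.pow_le_pow_left w1 _)
            ((Nat.pow_le_pow_left p1 _).trans (le_trans ?_ w2))
          rw [← pow_mul, ← pow_mul, hk, ← mul_assoc]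
          exact Nat.pow_le_pow_right (by omega) (Nat.le_succ _)
    omega
  have b3 : (Icc 1 (X / y) ∪ Rough X y).card ≤ X / y + (Rough X y).card :=
    (card_union_le _ _).trans (by simp)
  have b4 : T.card ≤ X / y + C₀ * (X / y + (Rough X y).card) := by
    rw [← card_filter_add_card_filter_not (s := T) fun N => N ≤ X / y]
    exact Nat.add_le_add b1 (b2.trans (Nat.mul_le_mul_left _ b3))
  have d : ((X / y : ℕ) : ℝ) ≤ X / y := Nat.cast_div_le
  have b5 : (T.card : ℝ) ≤ X / y + C₀ * (X / y + (Rough X y).card) := by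
    refine le_trans (b := ((X / y : ℕ) : ℝ) + C₀ * ((X / y : ℕ) + (Rough X y).card))
      (by exact_mod_cast b4) (by gcongr)
  have y0 : (0 : ℝ) < y := by positivity
  have l1 : Real.log X ≤ (2 * (k + 1)) * y := by
    have x0 : (0 : ℝ) < X := by have : 0 < X := lt_of_lt_of_le (by positivity) y4; positivity
    have := Real.log_le_log x0 (show (X : ℝ) ≤ (y : ℝ) ^ (2 * (k + 1)) by exact_mod_cast y3)
    rw [Real.log_pow] at this
    push_cast at this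
    exact this.trans (mul_le_mul_of_nonneg_left (Real.log_le_self y0.le) (by positivity))
  have l2 : X / y * Real.log X ≤ (2 * (k + 1)) * X := by
    rw [div_mul_eq_mul_div, div_le_iff₀ y0]
    nlinarith
  have e1 := mul_le_mul_of_nonneg_right b5 L0
  have e2 := mul_le_mul_of_nonneg_left r1 (Nat.cast_nonneg (α := ℝ) C₀)
  have e3 := mul_le_mul_of_nonneg_left l2 (Nat.cast_nonneg (α := ℝ) C₀)
  have e4 : (0 : ℝ) ≤ 2 ^ (k + 1) * X := by positivity
  push_cast at e2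
  nlinarith

section chars

variable {Λ : Type} [AddCommGroup Λ] {r : ℕ}

theorem link_ext (b : Basis (Fin r) ℤ Λ) {ψ ψ' : AddChar Λ ℂ} (h : ∀ i, ψ (b i) = ψ' (b i)) :
    ψ = ψ' := by
  ext l
  induction b.mem_span l using Submodule.span_induction with
  | mem x hx => obtain ⟨i, rfl⟩ := hx; exact h i
  | zero => simp
  | add x y _ _ hx hy => rw [ψ.map_add_eq_mul, ψ'.map_add_eq_mul, hx, hy]
  | smul k x _ hx => rw [ψ.map_zsmul_eq_zpow, ψ'.map_zsmul_eq_zpow, hx]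

/-- few characters have a given power. -/
theorem link_fin (b : Basis (Fin r) ℤ Λ) (s : ℕ) (f : Λ → ℂ) :
    ∃ S : Finset (AddChar Λ ℂ), S.card ≤ s ^ r ∧
      ∀ ψ : AddChar Λ ℂ, 0 < s → (∀ l, ψ l ^ s = f l) → ψ ∈ S := by
  classical
  have hi : Function.Injective fun (ψ : AddChar Λ ℂ) (i : Fin r) => ψ (b i) :=
    fun ψ ψ' h => link_ext b (congrFun h)
  refine ⟨(Fintype.piFinset fun i => (Polynomial.nthRoots s (f (b i))).toFinset).preimage _
    hi.injOn, ?_, fun ψ hs h => ?_⟩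
  · refine (card_le_card_of_injOn _ (fun ψ hψ => mem_preimage.1 hψ) hi.injOn).trans ?_
    rw [Fintype.card_piFinset]
    refine (prod_le_pow_card _ _ s fun i _ => (Multiset.toFinset_card_le _).trans
      (Polynomial.card_nthRoots _ _)).trans (by simp)
  · rw [mem_preimage, Fintype.mem_piFinset]
    intro i
    rw [Multiset.mem_toFinset, Polynomial.mem_nthRoots hs]
    exact h _

/-- many characters have order dividing `n`. -/
theorem link_many (b : Basis (Fin r) ℤ Λ) {n : ℕ} (hn : 0 < n) :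
    ∃ E : Finset (AddChar Λ ℂ), n ^ r ≤ E.card ∧ ∀ η ∈ E, η ^ n = 1 := by
  classical
  have key : ∀ w : Fin r → ℂ, ∃ η : AddChar Λ ℂ, (∀ i, w i ^ n = 1) →
      η ^ n = 1 ∧ ∀ i, η (b i) = w i := by
    intro w
    by_cases hw : ∀ i, w i ^ n = 1
    swap
    · exact ⟨1, fun c => absurd c hw⟩
    have h0 : ∀ i, w i ≠ 0 := fun i c => by
      have := hw i
      rw [c, zero_pow hn.ne'] at this
      exact zero_ne_one this
    refine ⟨⟨fun l => ∏ i, w i ^ b.repr l i, by simp, fun x y => ?_⟩, fun _ => ⟨?_, fun i => ?_⟩⟩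
    · rw [← prod_mul_distrib]
      exact prod_congr rfl fun i _ => by rw [map_add, Finsupp.add_apply, zpow_add₀ (h0 i)]
    · ext l
      rw [AddChar.pow_apply, AddChar.one_apply]
      change (∏ i, w i ^ b.repr l i) ^ n = 1
      rw [← prod_pow]
      refine prod_eq_one fun i _ => ?_
      rw [← zpow_natCast, ← zpow_mul, mul_comm, zpow_mul, zpow_natCast, hw, one_zpow]
    · change ∏ k, w k ^ b.repr (b i) k = w i
      rw [prod_eq_single i (fun k _ hk => by simp [hk.symm]) (by simp)]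
      simp
  choose η hη using key
  have hm : ∀ w ∈ Fintype.piFinset fun _ : Fin r => Polynomial.nthRootsFinset n (1 : ℂ),
      ∀ i, w i ^ n = 1 := fun w hw i =>
    (Polynomial.mem_nthRootsFinset hn _).1 (Fintype.mem_piFinset.1 hw i)
  refine ⟨(Fintype.piFinset fun _ : Fin r => Polynomial.nthRootsFinset n (1 : ℂ)).image η, ?_,
    fun x hx => ?_⟩
  · rw [card_image_of_injOn, Fintype.card_piFinset]
    · simp [(Complex.isPrimitiveRoot_exp n hn.ne').card_nthRootsFinset]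
    · intro w hw w' hw' e
      funext i
      rw [← (hη w (hm w hw)).2 i, ← (hη w' (hm w' hw')).2 i, e]
  · obtain ⟨w, hw, rfl⟩ := mem_image.1 hx
    exact (hη w (hm w hw)).1

/-- a cyclic group has few elements of order dividing `n`. -/
theorem link_cyc {G : Type} [CommGroup G] {ξ : G} (hξ : IsOfFinOrder ξ) {n : ℕ} (hn : 0 < n) :
    ∃ R : Finset G, R.card ≤ n ∧ ∀ θ ∈ Subgroup.zpowers ξ, θ ^ n = 1 → θ ∈ R := by
  classical
  have : Finite (Subgroup.zpowers ξ) := hξ.finite_zpowers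
  have := Fintype.ofFinite (Subgroup.zpowers ξ)
  refine ⟨(univ.filter fun a : Subgroup.zpowers ξ => a ^ n = 1).image Subtype.val,
    card_image_le.trans (IsCyclic.card_pow_eq_one_le hn), fun θ h1 h2 => ?_⟩
  exact mem_image.2 ⟨⟨θ, h1⟩, mem_filter.2 ⟨mem_univ _, Subtype.ext h2⟩, rfl⟩

end chars

section main

variable {Λ : Type} [AddCommGroup Λ] [Module.Free ℤ Λ] [Module.Finite ℤ Λ]
  {U : AddChar Λ ℂ → Prop}

theorem link_orb (h : Link U) : Orb U := by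
  classical
  obtain ⟨a, T, Φ, J, h1, h2, h3⟩ := h
  refine ⟨a, ∑ φ ∈ Φ, φ.1 ^ finrank ℤ Λ, T, fun M hM => ?_⟩
  by_cases hex : ∃ χ : AddChar Λ ℂ, χ ^ M = 1 ∧ M ^ a ≤ orderOf χ ^ (a + 1) ∧ U χ ∧ NoRel T χ
  swap
  · exact ⟨∅, by simp, fun χ a b c d => absurd ⟨χ, a, b, c, d⟩ hex⟩
  obtain ⟨χ₀, a₀, b₀, c₀, d₀⟩ := hex
  choose S hS using fun φ : ℕ × (Λ →ₗ[ℤ] Λ) =>
    link_fin (finBasis ℤ Λ) φ.1 fun l => (χ₀ ^ J χ₀) (φ.2 l)
  refine ⟨Φ.biUnion S, card_biUnion_le.trans (sum_le_sum fun φ _ => (hS φ).1),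
    fun χ a b c d => ⟨J χ, h2 χ, ?_⟩⟩
  obtain ⟨φ, hφ, e⟩ := h3 χ₀ χ M hM a₀ a b₀ b c₀ c d₀ d
  exact mem_biUnion.2 ⟨φ, hφ, (hS φ).2 _ (h1 φ hφ) e⟩

omit [Module.Free ℤ Λ] [Module.Finite ℤ Λ] in
theorem link_thin' (h : Orb U) : Thin U := by
  classical
  obtain ⟨a, C₀, T, h⟩ := h
  obtain ⟨C, hC⟩ := link_thin {N | ∃ χ : AddChar Λ ℂ, orderOf χ = N ∧ U χ ∧ NoRel T χ} a C₀
    fun M hM T' hT => by
      obtain ⟨S, s1, s2⟩ := h M hM
      refine (card_le_card (t := S.image orderOf) fun N hN => ?_).trans (card_image_le.trans s1)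
      obtain ⟨⟨χ, rfl, u, r⟩, d, w⟩ := hT N hN
      obtain ⟨j, j1, j2⟩ := s2 χ (orderOf_dvd_iff_pow_eq_one.1 d) w u r
      exact mem_image.2 ⟨_, j2, j1.symm.orderOf_pow⟩
  refine ⟨T, C, {N | ∃ χ : AddChar Λ ℂ, orderOf χ = N ∧ U χ ∧ NoRel T χ}, fun X => ?_,
    fun χ _ u r => ⟨χ, rfl, u, r⟩⟩
  have f := (Set.finite_Icc 1 X).inter_of_right
    {N | ∃ χ : AddChar Λ ℂ, orderOf χ = N ∧ U χ ∧ NoRel T χ}
  rw [Set.ncard_eq_toFinset_card _ f]
  exact hC X _ fun N hN => by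
    have := f.mem_toFinset.1 hN
    exact ⟨this.1, this.2⟩

theorem link_notAll (h : Link U) (hr : 2 ≤ finrank ℤ Λ) : NotAll U := by
  classical
  obtain ⟨a, T, Φ, J, h1, h2, h3⟩ := h
  refine ⟨∑ φ ∈ Φ, φ.1 ^ finrank ℤ Λ + 1, fun n hn => ?_⟩
  have n0 : 0 < n := by omega
  let b := finBasis ℤ Λ
  refine ⟨insert ((n ^ a).factorial • b ⟨0, by omega⟩) T, fun χ hχ hR => ?_⟩
  by_contra hc
  have hU : ∀ η : AddChar Λ ℂ, η ^ n = 1 → U (η * χ) := fun η hη => by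
    by_contra c
    exact hc ⟨η, hη, c⟩
  have hN : n ^ a ≤ orderOf (χ ^ n) := hR.le_order hχ.pow (b.ne_zero _) (mem_insert_self _ _)
  have pn : ∀ η : AddChar Λ ℂ, η ^ n = 1 → (η * χ) ^ n = χ ^ n := fun η hη => by
    rw [mul_pow, hη, one_mul]
  have fo : ∀ η : AddChar Λ ℂ, η ^ n = 1 → IsOfFinOrder (η * χ) := fun η hη =>
    (fin_of_pow n0 hη).mul hχ
  have p1 : ∀ η : AddChar Λ ℂ, η ^ n = 1 → (η * χ) ^ (n * orderOf (χ ^ n)) = 1 := fun η hη => by
    rw [pow_mul, pn η hη, pow_orderOf_eq_one]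
  have p2 : ∀ η : AddChar Λ ℂ, η ^ n = 1 →
      (n * orderOf (χ ^ n)) ^ a ≤ orderOf (η * χ) ^ (a + 1) := fun η hη => by
    have : orderOf (χ ^ n) ≤ orderOf (η * χ) := by
      rw [← pn η hη]
      exact Nat.le_of_dvd (fo η hη).orderOf_pos (orderOf_pow_dvd n)
    refine le_trans ?_ (Nat.pow_le_pow_left this _)
    rw [mul_pow, pow_succ']
    exact Nat.mul_le_mul_right _ hN
  have p3 : ∀ η : AddChar Λ ℂ, η ^ n = 1 → NoRel T (η * χ) := fun η hη l hl l0 e =>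
    hR l (mem_insert_of_mem hl) l0 (by rw [← pn η hη, AddChar.pow_apply, e, one_pow])
  obtain ⟨E, e1, e2⟩ := link_many b n0
  have cov : E ⊆ Φ.biUnion fun φ => E.filter fun η =>
      ∀ l, ((η * χ) ^ J (η * χ)) l ^ φ.1 = ((1 * χ) ^ J (1 * χ)) (φ.2 l) := fun η hη => by
    obtain ⟨φ, hφ, e⟩ := h3 (1 * χ) (η * χ) _ (Nat.mul_pos n0 (hχ.pow (n := n)).orderOf_pos)
      (p1 1 (one_pow n)) (p1 η (e2 η hη)) (p2 1 (one_pow n)) (p2 η (e2 η hη)) (hU 1 (one_pow n))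
      (hU η (e2 η hη)) (p3 1 (one_pow n)) (p3 η (e2 η hη))
    exact mem_biUnion.2 ⟨φ, hφ, mem_filter.2 ⟨hη, e⟩⟩
  have fib : ∀ φ ∈ Φ, (E.filter fun η => ∀ l, ((η * χ) ^ J (η * χ)) l ^ φ.1 =
      ((1 * χ) ^ J (1 * χ)) (φ.2 l)).card ≤ n * φ.1 ^ finrank ℤ Λ := by
    intro φ hφ
    rcases (E.filter fun η => ∀ l, ((η * χ) ^ J (η * χ)) l ^ φ.1 =
      ((1 * χ) ^ J (1 * χ)) (φ.2 l)).eq_empty_or_nonempty with e | ⟨η₁, hη₁⟩
    · rw [e]; exact Nat.zero_le _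
    obtain ⟨s₁, t₁⟩ := mem_filter.1 hη₁
    obtain ⟨R, r1, r2⟩ := link_cyc (fo η₁ (e2 η₁ s₁)) n0
    choose S hS using fun ρ : AddChar Λ ℂ => link_fin b φ.1 fun l => (ρ * η₁ ^ φ.1) l
    refine (card_le_card (t := R.biUnion S) fun η hη => ?_).trans
      ((card_biUnion_le_card_mul _ _ _ fun ρ _ => (hS ρ).1).trans (Nat.mul_le_mul_right _ r1))
    obtain ⟨s, t⟩ := mem_filter.1 hη
    have q1 : ((η * χ) ^ J (η * χ)) ^ φ.1 = ((η₁ * χ) ^ J (η₁ * χ)) ^ φ.1 := by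
      ext l
      rw [AddChar.pow_apply, AddChar.pow_apply _ φ.1, t, t₁]
    obtain ⟨i, hi⟩ := exists_pow_eq_self_of_coprime (h2 (η * χ))
    have q2 : (η * χ) ^ φ.1 = (η₁ * χ) ^ (J (η₁ * χ) * φ.1 * i) := by
      rw [pow_mul, pow_mul, ← q1, ← pow_mul _ φ.1, mul_comm φ.1, pow_mul _ i, hi]
    have q3 : η ^ φ.1 / η₁ ^ φ.1 = (η * χ) ^ φ.1 / (η₁ * χ) ^ φ.1 := by
      rw [mul_pow, mul_pow, mul_div_mul_right_eq_div]
    refine mem_biUnion.2 ⟨η ^ φ.1 / η₁ ^ φ.1, r2 _ ?_ ?_, (hS _).2 η (h1 φ hφ) fun l => ?_⟩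
    · rw [q3, q2]
      exact div_mem (Subgroup.npow_mem_zpowers _ _) (Subgroup.npow_mem_zpowers _ _)
    · rw [div_pow, ← pow_mul, ← pow_mul, mul_comm φ.1, pow_mul, pow_mul, e2 η s, e2 η₁ s₁,
        div_self']
    · rw [div_mul_cancel, AddChar.pow_apply]
  have tot := (e1.trans (card_le_card cov)).trans (card_biUnion_le.trans (sum_le_sum fib))
  rw [← mul_sum] at tot
  have : n * n ≤ n ^ finrank ℤ Λ := by
    rw [← sq]
    exact Nat.pow_le_pow_right n0 hr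
  have := Nat.le_of_mul_le_mul_left (this.trans tot) n0
  omega

end main

theorem sLink : SLink := fun _ _ _ _ _ h =>
  ⟨link_orb h, link_thin' (link_orb h), link_notAll h⟩

end Pool.Agent.MP_c1891a_nt.G43
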